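import Pool.Agent.N440.LB.Stm

/-!
# The divergence theorem in a convex polygon in one direction (leaf DB of the project LB)
-/

set_option autoImplicit false

namespace Pool.Agent.N645.LB

open Complex Set MeasureTheory Filter Topology Pool.Agent.W780.PG Pool.Agent.W780.BB
  Pool.Agent.TH103.BL Pool.Agent.N440.LB

open scoped Real ComplexConjugate

/-- rotated coordinates -/
noncomputable def co (θ : ℝ) (x : ℝ × ℝ) : ℂ := ((x.1 : ℂ) + x.2 * I) * dir θ

theorem co_eq (θ : ℝ) :
    co θ = (rotation (Circle.exp θ)) ∘ Complex.measurableEquivRealProd.symm := by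
  funext x
  show ((x.1 : ℂ) + x.2 * I) * dir θ = rotation (Circle.exp θ) (Complex.measurableEquivRealProd.symm x)
  rw [rotation_apply, Circle.coe_exp, Complex.measurableEquivRealProd_symm_apply, dir, mul_comm]
  congr 1
  apply Complex.ext <;> simp

theorem co_mp (θ : ℝ) : MeasurePreserving (co θ) := by
  rw [co_eq]
  exact (rotation (Circle.exp θ)).measurePreserving.comp
    Complex.volume_preserving_equiv_real_prod.symm

theorem co_emb (θ : ℝ) : MeasurableEmbedding (co θ) := by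
  rw [co_eq]
  exact (rotation (Circle.exp θ)).toHomeomorph.measurableEmbedding.comp
    Complex.measurableEquivRealProd.symm.measurableEmbedding

theorem co_norm_sq (θ : ℝ) (x : ℝ × ℝ) : ‖co θ x‖ ^ 2 = x.1 ^ 2 + x.2 ^ 2 := by
  have h1 : ‖dir θ‖ = 1 := by
    unfold dir
    exact Complex.norm_exp_ofReal_mul_I θ
  unfold co
  rw [norm_mul, h1, mul_one, Complex.sq_norm, Complex.normSq_apply]
  simp
  ring

theorem co_norm_le (θ : ℝ) (x : ℝ × ℝ) (R : ℝ) (hR : 0 ≤ R) :
    ‖co θ x‖ ≤ R ↔ x.1 ^ 2 + x.2 ^ 2 ≤ R ^ 2 := by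
  rw [← co_norm_sq θ x]
  constructor
  · intro h
    exact pow_le_pow_left₀ (norm_nonneg _) h 2
  · intro h
    exact le_of_sq_le_sq h hR

theorem off_sub (θ : ℝ) (z w : ℂ) : off θ (z - w) = off θ z - off θ w := by
  unfold off
  rw [mul_sub, Complex.sub_im]

theorem pt_cont {n : ℕ} (p : Fin (n + 3) → ℂ) (i : Fin (n + 3)) : Continuous (pt p i) := by
  unfold pt
  fun_prop

theorem par_cont {n : ℕ} (p : Fin (n + 3) → ℂ) (θ : ℝ) (i : Fin (n + 3)) :
    Continuous (par p θ i) := by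
  unfold par
  exact (continuous_id.sub continuous_const).div_const _

theorem pt_norm {n : ℕ} (p : Fin (n + 3) → ℂ) (i : Fin (n + 3)) (R : ℝ) (hR : ∀ k, ‖p k‖ ≤ R)
    (t : ℝ) (h0 : 0 ≤ t) (h1 : t ≤ 1) : ‖pt p i t‖ ≤ R := by
  have h2 : pt p i t = (1 - t) • p i + t • p (i + 1) := by
    unfold pt
    rw [smul_sub, sub_smul, one_smul]
    ring
  rw [h2]
  calc ‖(1 - t) • p i + t • p (i + 1)‖ ≤ ‖(1 - t) • p i‖ + ‖t • p (i + 1)‖ := norm_add_le _ _
    _ = (1 - t) * ‖p i‖ + t * ‖p (i + 1)‖ := by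
        rw [norm_smul, norm_smul, Real.norm_of_nonneg (by linarith), Real.norm_of_nonneg h0]
    _ ≤ (1 - t) * R + t * R := by
        have := mul_le_mul_of_nonneg_left (hR i) (show 0 ≤ 1 - t by linarith)
        have := mul_le_mul_of_nonneg_left (hR (i + 1)) h0
        linarith
    _ = R := by ring

theorem par_mem_up {n : ℕ} (p : Fin (n + 3) → ℂ) (θ : ℝ) (i : Fin (n + 3)) (u : ℝ)
    (h1 : off θ (p i) < u) (h2 : u < off θ (p (i + 1))) : 0 ≤ par p θ i u ∧ par p θ i u ≤ 1 := by
  unfold par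
  have h3 : 0 < off θ (p (i + 1)) - off θ (p i) := by linarith
  refine ⟨div_nonneg (by linarith) h3.le, ?_⟩
  rw [div_le_one h3]
  linarith

theorem par_mem_down {n : ℕ} (p : Fin (n + 3) → ℂ) (θ : ℝ) (i : Fin (n + 3)) (u : ℝ)
    (h1 : off θ (p (i + 1)) < u) (h2 : u < off θ (p i)) : 0 ≤ par p θ i u ∧ par p θ i u ≤ 1 := by
  unfold par
  have h3 : off θ (p (i + 1)) - off θ (p i) < 0 := by linarith
  refine ⟨div_nonneg_of_nonpos (by linarith) h3.le, ?_⟩
  rw [div_le_one_of_neg h3]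
  linarith

/-- the contribution of a side -/
noncomputable def ws {n : ℕ} (p : Fin (n + 3) → ℂ) (θ : ℝ) (H : ℂ → ℝ) (l : Fin (n + 3)) (u : ℝ) : ℝ :=
  (Ioo (off θ (p l)) (off θ (p (l + 1)))).indicator (fun u => H (pt p l (par p θ l u))) u -
    (Ioo (off θ (p (l + 1))) (off θ (p l))).indicator (fun u => H (pt p l (par p θ l u))) u

theorem meas_K {n : ℕ} (p : Fin (n + 3) → ℂ) (θ : ℝ) (H : ℂ → ℝ) (hH : Measurable H)
    (l : Fin (n + 3)) : Measurable fun u => H (pt p l (par p θ l u)) :=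
  hH.comp ((pt_cont p l).comp (par_cont p θ l)).measurable

theorem int_up {n : ℕ} (p : Fin (n + 3) → ℂ) (θ : ℝ) (H : ℂ → ℝ) (hH : Measurable H) (R C : ℝ)
    (hR : ∀ k, ‖p k‖ ≤ R) (hC : ∀ z : ℂ, ‖z‖ ≤ R → |H z| ≤ C) (l : Fin (n + 3)) :
    IntegrableOn (fun u => H (pt p l (par p θ l u))) (Ioo (off θ (p l)) (off θ (p (l + 1)))) := by
  refine Measure.integrableOn_of_bounded (M := C) (by simp) (meas_K p θ H hH l).aestronglyMeasurable ?_
  refine (ae_restrict_iff' measurableSet_Ioo).2 (Eventually.of_forall fun u hu => ?_)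
  obtain ⟨h1, h2⟩ := par_mem_up p θ l u hu.1 hu.2
  exact hC _ (pt_norm p l R hR _ h1 h2)

theorem int_down {n : ℕ} (p : Fin (n + 3) → ℂ) (θ : ℝ) (H : ℂ → ℝ) (hH : Measurable H) (R C : ℝ)
    (hR : ∀ k, ‖p k‖ ≤ R) (hC : ∀ z : ℂ, ‖z‖ ≤ R → |H z| ≤ C) (l : Fin (n + 3)) :
    IntegrableOn (fun u => H (pt p l (par p θ l u))) (Ioo (off θ (p (l + 1))) (off θ (p l))) := by
  refine Measure.integrableOn_of_bounded (M := C) (by simp) (meas_K p θ H hH l).aestronglyMeasurable ?_
  refine (ae_restrict_iff' measurableSet_Ioo).2 (Eventually.of_forall fun u hu => ?_)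
  obtain ⟨h1, h2⟩ := par_mem_down p θ l u hu.1 hu.2
  exact hC _ (pt_norm p l R hR _ h1 h2)

theorem ws_int {n : ℕ} (p : Fin (n + 3) → ℂ) (θ : ℝ) (H : ℂ → ℝ) (hH : Measurable H) (R C : ℝ)
    (hR : ∀ k, ‖p k‖ ≤ R) (hC : ∀ z : ℂ, ‖z‖ ≤ R → |H z| ≤ C) (l : Fin (n + 3)) :
    Integrable (ws p θ H l) :=
  ((integrable_indicator_iff measurableSet_Ioo).2 (int_up p θ H hH R C hR hC l)).sub
    ((integrable_indicator_iff measurableSet_Ioo).2 (int_down p θ H hH R C hR hC l))

theorem ws_integral {n : ℕ} (p : Fin (n + 3) → ℂ) (θ : ℝ) (H : ℂ → ℝ) (hH : Measurable H) (R C : ℝ)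
    (hR : ∀ k, ‖p k‖ ≤ R) (hC : ∀ z : ℂ, ‖z‖ ≤ R → |H z| ≤ C) (l : Fin (n + 3)) :
    ∫ u, ws p θ H l u = off θ (p (l + 1) - p l) * ∫ t in (0 : ℝ)..1, H (pt p l t) := by
  have h1 : ∫ u, ws p θ H l u = ∫ u in (off θ (p l))..(off θ (p (l + 1))), H (pt p l (par p θ l u)) := by
    unfold ws
    rw [integral_sub ((integrable_indicator_iff measurableSet_Ioo).2 (int_up p θ H hH R C hR hC l))
      ((integrable_indicator_iff measurableSet_Ioo).2 (int_down p θ H hH R C hR hC l)),
      integral_indicator measurableSet_Ioo, integral_indicator measurableSet_Ioo,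
      ← integral_Ioc_eq_integral_Ioo, ← integral_Ioc_eq_integral_Ioo]
    rfl
  rw [h1, off_sub]
  by_cases h0 : off θ (p (l + 1)) - off θ (p l) = 0
  · have h2 : off θ (p (l + 1)) = off θ (p l) := by linarith
    rw [h2]
    simp
  · have h3 : ∀ u, par p θ l u = u / (off θ (p (l + 1)) - off θ (p l)) -
        off θ (p l) / (off θ (p (l + 1)) - off θ (p l)) := by
      intro u
      unfold par
      rw [sub_div]
    have h4 := intervalIntegral.integral_comp_div_sub (a := off θ (p l)) (b := off θ (p (l + 1)))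
      (fun t => H (pt p l t)) h0 (off θ (p l) / (off θ (p (l + 1)) - off θ (p l)))
    simp only [h3]
    rw [h4, sub_self, ← sub_div, div_self h0, smul_eq_mul]

/-- the slice integral -/
theorem slice (hDA : S_DA) (hB : S_Basic) {n : ℕ} (p : Fin (n + 3) → ℂ) (hp : IsConvexPolygon p)
    (θ : ℝ) (H h : ℂ → ℝ)
    (hHh : ∀ (z : ℂ) (s : ℝ), H (z + s • dir θ) - H z = ∫ r in (0 : ℝ)..s, h (z + r • dir θ))
    (R : ℝ) (hR0 : 0 ≤ R) (hR : ∀ k, ‖p k‖ ≤ R) (u : ℝ) (hu : ∀ k, off θ (p k) ≠ u) :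
    (∀ s, co θ (s, u) ∈ reg p → ‖co θ (s, u)‖ ≤ R) ∧
    ∫ s, (reg p).indicator h (co θ (s, u)) = ∑ l, ws p θ H l u := by
  rcases hDA hB n p hp θ u hu with ⟨h1, h2⟩ | ⟨i, j, α, β, hij, hi1, hi2, hj1, hj2, hl, hαβ, hs, hα, hβ⟩
  · have h3 : ∀ s : ℝ, co θ (s, u) ∉ reg p := by
      intro s hs
      have : s ∈ {s : ℝ | ((s : ℂ) + u * I) * dir θ ∈ reg p} := hs
      rw [h1] at this
      exact this
    refine ⟨fun s hs => absurd hs (h3 s), ?_⟩
    have h4 : ∀ s : ℝ, (reg p).indicator h (co θ (s, u)) = 0 := fun s => indicator_of_notMem (h3 s) _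
    simp only [h4, integral_zero]
    symm
    refine Finset.sum_eq_zero fun l _ => ?_
    unfold ws
    rcases h2 l with ⟨h5, h6⟩ | ⟨h5, h6⟩
    · rw [indicator_of_notMem (fun hh => lt_asymm h6 hh.2), indicator_of_notMem (fun hh => lt_asymm h5 hh.2),
        sub_zero]
    · rw [indicator_of_notMem (fun hh => lt_asymm h5 hh.1), indicator_of_notMem (fun hh => lt_asymm h6 hh.1),
        sub_zero]
  · have hmem : ∀ s : ℝ, co θ (s, u) ∈ reg p ↔ s ∈ Ioo α β := by
      intro s
      rw [← hs]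
      rfl
    have hα' : co θ (α, u) = pt p j (par p θ j u) := hα
    have hβ' : co θ (β, u) = pt p i (par p θ i u) := hβ
    obtain ⟨hi3, hi4⟩ := par_mem_up p θ i u hi1 hi2
    obtain ⟨hj3, hj4⟩ := par_mem_down p θ j u hj1 hj2
    have hnα : ‖co θ (α, u)‖ ≤ R := by
      rw [hα']
      exact pt_norm p j R hR _ hj3 hj4
    have hnβ : ‖co θ (β, u)‖ ≤ R := by
      rw [hβ']
      exact pt_norm p i R hR _ hi3 hi4
    rw [co_norm_le θ _ R hR0] at hnα hnβ
    refine ⟨fun s hs' => ?_, ?_⟩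
    · obtain ⟨h5, h6⟩ := (hmem s).1 hs'
      rw [co_norm_le θ _ R hR0]
      simp only at hnα hnβ ⊢
      rcases le_total 0 s with h7 | h7
      · nlinarith
      · nlinarith
    · have h5 : ∀ s : ℝ, (reg p).indicator h (co θ (s, u)) =
          (Ioo α β).indicator (fun s => h (co θ (s, u))) s := by
        intro s
        by_cases h6 : s ∈ Ioo α β
        · rw [indicator_of_mem h6, indicator_of_mem ((hmem s).2 h6)]
        · rw [indicator_of_notMem h6, indicator_of_notMem (fun hh => h6 ((hmem s).1 hh))]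
      simp only [h5]
      rw [integral_indicator measurableSet_Ioo, ← integral_Ioc_eq_integral_Ioo,
        ← intervalIntegral.integral_of_le hαβ.le]
      have h6 : ∀ r : ℝ, co θ (r + α, u) = co θ (α, u) + r • dir θ := by
        intro r
        unfold co
        simp only [Complex.real_smul]
        push_cast
        ring
      have h7 : ∫ s in α..β, h (co θ (s, u)) = ∫ r in (0 : ℝ)..(β - α), h (co θ (α, u) + r • dir θ) := by
        have h8 := intervalIntegral.integral_comp_add_right (a := (0 : ℝ)) (b := β - α)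
          (fun s => h (co θ (s, u))) α
        simp only [zero_add, sub_add_cancel] at h8
        rw [← h8]
        refine intervalIntegral.integral_congr fun r _ => ?_
        rw [h6]
      rw [h7, ← hHh, ← h6, sub_add_cancel, hα', hβ']
      have h9 : ∑ l, ws p θ H l u = ws p θ H i u + ws p θ H j u := by
        refine Finset.sum_eq_add i j hij (fun l _ hne => ?_) (fun hh => absurd (Finset.mem_univ _) hh)
          (fun hh => absurd (Finset.mem_univ _) hh)
        unfold ws
        rcases hl l hne.1 hne.2 with ⟨h5, h6⟩ | ⟨h5, h6⟩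
        · rw [indicator_of_notMem (fun hh => lt_asymm h6 hh.2),
            indicator_of_notMem (fun hh => lt_asymm h5 hh.2), sub_zero]
        · rw [indicator_of_notMem (fun hh => lt_asymm h5 hh.1),
            indicator_of_notMem (fun hh => lt_asymm h6 hh.1), sub_zero]
      rw [h9]
      unfold ws
      rw [indicator_of_mem (show u ∈ Ioo _ _ from ⟨hi1, hi2⟩),
        indicator_of_notMem (fun hh => lt_asymm hi1 hh.2),
        indicator_of_notMem (fun hh => lt_asymm hj2 hh.1),
        indicator_of_mem (show u ∈ Ioo _ _ from ⟨hj1, hj2⟩)]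
      ring

theorem t_DB : S_DB := by
  intro hB hDA n p hp θ H h hH hh hbd hHh
  have hopen : IsOpen (reg p) := (hB n p hp).2.1
  obtain ⟨R, hR0, hR⟩ : ∃ R : ℝ, 0 ≤ R ∧ ∀ k, ‖p k‖ ≤ R :=
    ⟨∑ k, ‖p k‖, Finset.sum_nonneg fun _ _ => norm_nonneg _,
      fun k => Finset.single_le_sum (f := fun k => ‖p k‖) (fun _ _ => norm_nonneg _) (Finset.mem_univ k)⟩
  obtain ⟨C, hC⟩ := hbd R
  have hu : ∀ᵐ u : ℝ, ∀ k, off θ (p k) ≠ u := by
    rw [ae_all_iff]
    intro k
    have := (measure_singleton (μ := (volume : Measure ℝ)) (off θ (p k)))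
    rw [ae_iff]
    simp only [ne_eq, not_not]
    have h1 : {a : ℝ | off θ (p k) = a} = {off θ (p k)} := by
      ext a
      simp [eq_comm]
    rw [h1]
    exact this
  have hu2 : ∀ᵐ x : ℝ × ℝ, ∀ k, off θ (p k) ≠ x.2 :=
    Measure.quasiMeasurePreserving_snd.ae hu
  have hmeas : Measurable fun x : ℝ × ℝ => (reg p).indicator h (co θ x) :=
    (hh.indicator hopen.measurableSet).comp (co_mp θ).measurable
  have hint : Integrable (fun x : ℝ × ℝ => (reg p).indicator h (co θ x)) := by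
    have h1 : IntegrableOn (fun x : ℝ × ℝ => (reg p).indicator h (co θ x)) (Icc (-R) R ×ˢ Icc (-R) R) := by
      refine Measure.integrableOn_of_bounded (M := C) ?_ hmeas.aestronglyMeasurable ?_
      · rw [Measure.volume_eq_prod, Measure.prod_prod]
        exact (ENNReal.mul_lt_top (by simp) (by simp)).ne
      · refine ae_restrict_of_ae (hu2.mono fun x hx => ?_)
        by_cases h2 : co θ x ∈ reg p
        · rw [indicator_of_mem h2]
          exact (hC _ ((slice hDA hB p hp θ H h hHh R hR0 hR x.2 hx).1 x.1 h2)).2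
        · rw [indicator_of_notMem h2, norm_zero]
          exact (abs_nonneg _).trans (hC 0 (by simpa using hR0)).1
    refine h1.integrable_of_ae_notMem_eq_zero (hu2.mono fun x hx hx' => ?_)
    by_contra h2
    have h3 : co θ x ∈ reg p := by
      by_contra h4
      exact h2 (indicator_of_notMem h4 _)
    have h4 := (slice hDA hB p hp θ H h hHh R hR0 hR x.2 hx).1 x.1 h3
    rw [co_norm_le θ _ R hR0] at h4
    simp only at h4
    refine hx' (mem_prod.2 ⟨?_, ?_⟩)
    · rw [mem_Icc, ← abs_le]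
      exact abs_le_of_sq_le_sq (by nlinarith [sq_nonneg x.2]) hR0
    · rw [mem_Icc, ← abs_le]
      exact abs_le_of_sq_le_sq (by nlinarith [sq_nonneg x.1]) hR0
  rw [← integral_indicator hopen.measurableSet,
    ← (co_mp θ).integral_comp (co_emb θ) ((reg p).indicator h)]
  rw [Measure.volume_eq_prod] at hint ⊢
  rw [integral_prod_symm _ hint]
  calc ∫ u, ∫ s, (reg p).indicator h (co θ (s, u)) = ∫ u, ∑ l, ws p θ H l u := by
        refine integral_congr_ae (hu.mono fun u hu' => ?_)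
        exact (slice hDA hB p hp θ H h hHh R hR0 hR u hu').2
    _ = ∑ l, ∫ u, ws p θ H l u := by
        refine integral_finsetSum _ fun l _ => ?_
        exact ws_int p θ H hH R C hR (fun z hz => (hC z hz).1) l
    _ = _ := by
        refine Finset.sum_congr rfl fun l _ => ?_
        exact ws_integral p θ H hH R C hR (fun z hz => (hC z hz).1) l

end Pool.Agent.N645.LB
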